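import Pool.Agent.helper4.GA.Spec

set_option autoImplicit false

open Finset
open Pool.Agent.helper32.Cant

namespace Pool.Agent.GA

theorem MUL_zero {M : ℕ} [NeZero M] (ξ : ZMod M) : ch ξ 0 = 1 := by
  unfold ch
  rw [mul_zero, AddChar.map_zero_eq_one]

theorem MUL_geom (hCHR : CHR_stmt) {M : ℕ} [NeZero M] (ξ : ZMod M) (L : ℕ) :
    (∑ d ∈ range L, ch ξ (d : ZMod M)) * (1 - ch ξ 1) = 1 - ch ξ (L : ZMod M) := by
  induction L with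
  | zero => rw [Finset.range_zero, Finset.sum_empty, zero_mul, Nat.cast_zero, MUL_zero, sub_self]
  | succ L ih =>
    rw [Finset.sum_range_succ, add_mul, ih, Nat.cast_add, Nat.cast_one, (hCHR M).2.1 ξ (L : ZMod M) 1]
    ring

theorem MUL_exp (hCHR : CHR_stmt) {M : ℕ} [NeZero M] (ξ : ZMod M) (L : ℕ) :
    ch ξ (L : ZMod M) = Complex.exp (Complex.I * ((2 * Real.pi * (ξ.valMinAbs : ℝ) * L / M : ℝ) : ℂ)) := by
  have h := (hCHR M).2.2.1 ξ.valMinAbs (L : ℤ)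
  rw [ZMod.coe_valMinAbs, Int.cast_natCast] at h
  rw [h]
  congr 1
  push_cast
  ring

theorem MUL (hCHR : CHR_stmt) : MUL_stmt := by
  intro M L _ ξ
  have hM : (0 : ℝ) < M := by
    exact_mod_cast Nat.pos_of_ne_zero (NeZero.ne M)
  have hS : ‖∑ d ∈ range L, ch ξ (d : ZMod M)‖ ≤ L := by
    refine (norm_sum_le _ _).trans ?_
    have h0 : ∑ d ∈ range L, ‖ch ξ (d : ZMod M)‖ = ∑ _d ∈ range L, (1 : ℝ) :=
      Finset.sum_congr rfl (fun d _ => (hCHR M).1 ξ (d : ZMod M))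
    rw [h0, Finset.sum_const, Finset.card_range, nsmul_eq_mul, mul_one]
  have hD : ‖1 - ch ξ (L : ZMod M)‖ ≤ 2 := by
    refine (norm_sub_le _ _).trans ?_
    rw [norm_one, (hCHR M).1]
    norm_num
  have hS0 := norm_nonneg (∑ d ∈ range L, ch ξ (d : ZMod M))
  have hD0 := norm_nonneg (1 - ch ξ (L : ZMod M))
  have hn0 : 0 ≤ nrm ξ := abs_nonneg _
  refine ⟨?_, ?_, ?_, ?_⟩
  · unfold mult
    have h1 : ‖∑ d ∈ range L, ch ξ (d : ZMod M)‖ ^ 2 ≤ (L : ℝ) ^ 2 := pow_le_pow_left₀ hS0 hS 2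
    have h2 : ‖1 - ch ξ (L : ZMod M)‖ ^ 2 ≤ 2 ^ 2 := pow_le_pow_left₀ hD0 hD 2
    calc _ ≤ (L : ℝ) ^ 2 * 2 ^ 2 := mul_le_mul h1 h2 (by positivity) (by positivity)
      _ = _ := by ring
  · unfold mult
    have h3 : ‖1 - ch ξ (L : ZMod M)‖ ≤ 2 * Real.pi * nrm ξ * L / M := by
      rw [MUL_exp hCHR ξ L, norm_sub_rev]
      refine (Real.norm_exp_I_mul_ofReal_sub_one_le).trans ?_
      rw [Real.norm_eq_abs, abs_div, abs_mul, abs_mul, abs_mul, abs_of_pos Real.pi_pos, abs_of_pos hM,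
        abs_of_nonneg (Nat.cast_nonneg L : (0 : ℝ) ≤ L), abs_of_pos (two_pos : (0 : ℝ) < 2)]
      exact le_rfl
    have h1 : ‖∑ d ∈ range L, ch ξ (d : ZMod M)‖ ^ 2 ≤ (L : ℝ) ^ 2 := pow_le_pow_left₀ hS0 hS 2
    have h2 : ‖1 - ch ξ (L : ZMod M)‖ ^ 2 ≤ (2 * Real.pi * nrm ξ * L / M) ^ 2 := pow_le_pow_left₀ hD0 h3 2
    calc _ ≤ (L : ℝ) ^ 2 * (2 * Real.pi * nrm ξ * L / M) ^ 2 := mul_le_mul h1 h2 (by positivity) (by positivity)
      _ = _ := by ring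
  · have h4 : 4 * nrm ξ / M ≤ ‖1 - ch ξ 1‖ := by
      have h5 := MUL_exp hCHR ξ 1
      rw [Nat.cast_one] at h5
      rw [h5, norm_sub_rev, Complex.norm_exp_I_mul_ofReal_sub_one]
      have hb : ξ.valMinAbs.natAbs ≤ M / 2 := ZMod.natAbs_valMinAbs_le ξ
      have hb2 : (ξ.valMinAbs.natAbs : ℝ) ≤ (M : ℝ) / 2 := by
        have h6 : (ξ.valMinAbs.natAbs : ℝ) ≤ ((M / 2 : ℕ) : ℝ) := by exact_mod_cast hb
        have h7 : ((M / 2 : ℕ) : ℝ) ≤ (M : ℝ) / 2 := Nat.cast_div_le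
        exact h6.trans h7
      have hb3 : |((ξ.valMinAbs : ℤ) : ℝ)| ≤ (M : ℝ) / 2 := by
        rw [Nat.cast_natAbs, Int.cast_abs] at hb2
        exact hb2
      have hx : |Real.pi * (ξ.valMinAbs : ℝ) / M| ≤ Real.pi / 2 := by
        rw [abs_div, abs_mul, abs_of_pos Real.pi_pos, abs_of_pos hM, div_le_div_iff₀ hM two_pos]
        nlinarith [Real.pi_pos]
      have hsin := Real.mul_abs_le_abs_sin hx
      have e1 : (2 * Real.pi * (ξ.valMinAbs : ℝ) * ((1 : ℕ) : ℝ) / M) / 2 = Real.pi * (ξ.valMinAbs : ℝ) / M := by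
        rw [Nat.cast_one]
        ring
      rw [e1, Real.norm_eq_abs, abs_mul, abs_of_pos (two_pos : (0 : ℝ) < 2)]
      have e2 : 4 * nrm ξ / M = 2 * (2 / Real.pi * |Real.pi * (ξ.valMinAbs : ℝ) / M|) := by
        rw [abs_div, abs_mul, abs_of_pos Real.pi_pos, abs_of_pos hM]
        unfold nrm
        have := Real.pi_pos.ne'
        field_simp
        ring
      rw [e2]
      linarith
    have h8 : ‖∑ d ∈ range L, ch ξ (d : ZMod M)‖ * ‖1 - ch ξ 1‖ ≤ 2 := by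
      rw [← norm_mul, MUL_geom hCHR ξ L]
      exact hD
    have h9 : nrm ξ * ‖∑ d ∈ range L, ch ξ (d : ZMod M)‖ ≤ M / 2 := by
      have h10 : 4 * nrm ξ / M * ‖∑ d ∈ range L, ch ξ (d : ZMod M)‖ ≤ 2 := by
        refine le_trans ?_ h8
        rw [mul_comm]
        exact mul_le_mul_of_nonneg_left h4 hS0
      have h11 : 4 * nrm ξ / M * ‖∑ d ∈ range L, ch ξ (d : ZMod M)‖ =
          (nrm ξ * ‖∑ d ∈ range L, ch ξ (d : ZMod M)‖) * 4 / M := by ring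
      rw [h11, div_le_iff₀ hM] at h10
      linarith
    unfold mult
    have h12 : (nrm ξ * ‖∑ d ∈ range L, ch ξ (d : ZMod M)‖) ^ 2 ≤ (M / 2 : ℝ) ^ 2 :=
      pow_le_pow_left₀ (by positivity) h9 2
    have h13 : ‖1 - ch ξ (L : ZMod M)‖ ^ 2 ≤ 2 ^ 2 := pow_le_pow_left₀ hD0 hD 2
    calc nrm ξ ^ 2 * (‖∑ d ∈ range L, ch ξ (d : ZMod M)‖ ^ 2 * ‖1 - ch ξ (L : ZMod M)‖ ^ 2) =
        (nrm ξ * ‖∑ d ∈ range L, ch ξ (d : ZMod M)‖) ^ 2 * ‖1 - ch ξ (L : ZMod M)‖ ^ 2 := by ring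
      _ ≤ (M / 2 : ℝ) ^ 2 * 2 ^ 2 := mul_le_mul h12 h13 (by positivity) (by positivity)
      _ = (M : ℝ) ^ 2 := by ring
  · unfold mult
    positivity

end Pool.Agent.GA
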